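import Mathlib

/-!
# MP_9ff1c8_al, Q1

There is a commutative universally flexible loop with the antiautomorphic inverse property which
is not a middle Bol loop.  The example has order 64: it is a central extension by `F₂` of a loop of
order 32, with underlying set `F₂^6` and multiplication given by explicit polynomials.
-/

namespace Pool.Agent.Results.MP_9ff1c8_al.NotMiddleBol

/-- A loop: a set with a multiplication, a two-sided identity, and the two divisions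
`ldiv a b = a \ b` (the unique solution `x` of `a x = b`) and `rdiv b a = b / a` (the unique
solution `y` of `y a = b`). -/
structure LoopStr (Q : Type) where
  mul : Q → Q → Q
  one : Q
  ldiv : Q → Q → Q
  rdiv : Q → Q → Q
  one_mul : ∀ x, mul one x = x
  mul_one : ∀ x, mul x one = x
  mul_ldiv : ∀ a b, mul a (ldiv a b) = b
  ldiv_mul : ∀ a x, ldiv a (mul a x) = x
  rdiv_mul : ∀ a b, mul (rdiv b a) a = b
  mul_rdiv : ∀ a y, rdiv (mul y a) a = y

/-- Commutativity. -/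
def LoopStr.Comm {Q : Type} (L : LoopStr Q) : Prop := ∀ x y, L.mul x y = L.mul y x

/-- Flexibility of a binary operation: `x(yx) = (xy)x`. -/
def Flexible {Q : Type} (op : Q → Q → Q) : Prop := ∀ x y, op x (op y x) = op (op x y) x

/-- Universal flexibility: every loop isotope `x ∘ y = α(x) β(y)` (`α`, `β` bijections of `Q`
such that `∘` has a two-sided identity) is flexible. -/
def LoopStr.UF {Q : Type} (L : LoopStr Q) : Prop :=
  ∀ α β : Equiv.Perm Q,
    (∃ e, ∀ x, L.mul (α e) (β x) = x ∧ L.mul (α x) (β e) = x) →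
    Flexible (fun x y => L.mul (α x) (β y))

/-- The antiautomorphic inverse property: two-sided inverses, and `(xy)⁻¹ = y⁻¹x⁻¹`. -/
def LoopStr.AAIP {Q : Type} (L : LoopStr Q) : Prop :=
  ∃ inv : Q → Q, (∀ x, L.mul x (inv x) = L.one ∧ L.mul (inv x) x = L.one) ∧
    ∀ x y, inv (L.mul x y) = L.mul (inv y) (inv x)

/-- The middle Bol identity `x((yz)\x) = (x/z)(y\x)`. -/
def LoopStr.MiddleBol {Q : Type} (L : LoopStr Q) : Prop :=
  ∀ x y z, L.mul x (L.ldiv (L.mul y z) x) = L.mul (L.rdiv x z) (L.ldiv y x)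

/-- The underlying set `F₂^6` of the example. -/
@[ext] structure E where
  s1 : ZMod 2
  s2 : ZMod 2
  y1 : ZMod 2
  y2 : ZMod 2
  c : ZMod 2
  z : ZMod 2

/-- The underlying set is `F₂^6`. -/
def equivFun : E ≃ (ZMod 2 × ZMod 2 × ZMod 2 × ZMod 2 × ZMod 2 × ZMod 2) where
  toFun p := (p.s1, p.s2, p.y1, p.y2, p.c, p.z)
  invFun p := ⟨p.1, p.2.1, p.2.2.1, p.2.2.2.1, p.2.2.2.2.1, p.2.2.2.2.2⟩
  left_inv _ := rfl
  right_inv _ := rfl

/-- `dd = 1` if `s = t` and `dd = 0` otherwise. -/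
def dd (s1 s2 t1 t2 : ZMod 2) : ZMod 2 := (1 + s1 + t1) * (1 + s2 + t2)

/-- The multiplication of the example: coordinatewise addition, with a correction when the two
`s`-parts coincide. -/
def mul (p q : E) : E where
  s1 := p.s1 + q.s1
  s2 := p.s2 + q.s2
  y1 := p.y1 + q.y1 + dd p.s1 p.s2 q.s1 q.s2 * p.s1
  y2 := p.y2 + q.y2 + dd p.s1 p.s2 q.s1 q.s2 * p.s2
  c := p.c + q.c
  z := p.z + q.z + dd p.s1 p.s2 q.s1 q.s2 * (p.c + q.c) *
    (p.s1 * (p.y2 + q.y2) + p.s2 * (p.y1 + q.y1) + p.s1 * p.s2)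

/-- The division of the example. -/
def ldiv (p r : E) : E where
  s1 := p.s1 + r.s1
  s2 := p.s2 + r.s2
  y1 := p.y1 + r.y1 + dd p.s1 p.s2 (p.s1 + r.s1) (p.s2 + r.s2) * p.s1
  y2 := p.y2 + r.y2 + dd p.s1 p.s2 (p.s1 + r.s1) (p.s2 + r.s2) * p.s2
  c := p.c + r.c
  z := p.z + r.z + dd p.s1 p.s2 (p.s1 + r.s1) (p.s2 + r.s2) * r.c *
    (p.s1 * r.y2 + p.s2 * r.y1 + p.s1 * p.s2)

theorem z2 (x : ZMod 2) : x = 0 ∨ x = 1 := by
  revert x; decide

theorem mul_ldiv (p r : E) : mul p (ldiv p r) = r := by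
  rcases p with ⟨a1, a2, a3, a4, a5, a6⟩
  rcases r with ⟨b1, b2, b3, b4, b5, b6⟩
  simp only [mul, ldiv, E.mk.injEq, dd]
  rcases z2 a1 with rfl | rfl <;> rcases z2 a2 with rfl | rfl <;>
  rcases z2 b1 with rfl | rfl <;> rcases z2 b2 with rfl | rfl <;>
  refine ⟨?_, ?_, ?_, ?_, ?_, ?_⟩ <;> grind

theorem ldiv_mul (p r : E) : ldiv p (mul p r) = r := by
  rcases p with ⟨a1, a2, a3, a4, a5, a6⟩
  rcases r with ⟨b1, b2, b3, b4, b5, b6⟩
  simp only [mul, ldiv, E.mk.injEq, dd]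
  rcases z2 a1 with rfl | rfl <;> rcases z2 a2 with rfl | rfl <;>
  rcases z2 b1 with rfl | rfl <;> rcases z2 b2 with rfl | rfl <;>
  refine ⟨?_, ?_, ?_, ?_, ?_, ?_⟩ <;> grind

theorem mul_comm' (p r : E) : mul p r = mul r p := by
  rcases p with ⟨a1, a2, a3, a4, a5, a6⟩
  rcases r with ⟨b1, b2, b3, b4, b5, b6⟩
  simp only [mul, E.mk.injEq, dd]
  rcases z2 a1 with rfl | rfl <;> rcases z2 a2 with rfl | rfl <;>
  rcases z2 b1 with rfl | rfl <;> rcases z2 b2 with rfl | rfl <;>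
  refine ⟨?_, ?_, ?_, ?_, ?_, ?_⟩ <;> grind

theorem one_mul' (p : E) : mul ⟨0, 0, 0, 0, 0, 0⟩ p = p := by
  rcases p with ⟨a1, a2, a3, a4, a5, a6⟩
  simp [mul]

theorem inv_mul (p r : E) :
    ldiv (mul p r) ⟨0, 0, 0, 0, 0, 0⟩ =
      mul (ldiv r ⟨0, 0, 0, 0, 0, 0⟩) (ldiv p ⟨0, 0, 0, 0, 0, 0⟩) := by
  rcases p with ⟨a1, a2, a3, a4, a5, a6⟩
  rcases r with ⟨b1, b2, b3, b4, b5, b6⟩
  simp only [mul, ldiv, E.mk.injEq, dd]
  rcases z2 a1 with rfl | rfl <;> rcases z2 a2 with rfl | rfl <;>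
  rcases z2 b1 with rfl | rfl <;> rcases z2 b2 with rfl | rfl <;>
  refine ⟨?_, ?_, ?_, ?_, ?_, ?_⟩ <;> grind

theorem uf_s1 (u a b w : E) :
    (mul u (ldiv b (mul (ldiv a (mul b w)) (ldiv b (mul u a))))).s1 =
      (mul (ldiv a (mul u w)) (ldiv b (mul u a))).s1 := by
  simp only [mul, ldiv]
  grind

theorem uf_s2 (u a b w : E) :
    (mul u (ldiv b (mul (ldiv a (mul b w)) (ldiv b (mul u a))))).s2 =
      (mul (ldiv a (mul u w)) (ldiv b (mul u a))).s2 := by
  simp only [mul, ldiv]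
  grind

theorem uf_c (u a b w : E) :
    (mul u (ldiv b (mul (ldiv a (mul b w)) (ldiv b (mul u a))))).c =
      (mul (ldiv a (mul u w)) (ldiv b (mul u a))).c := by
  simp only [mul, ldiv]
  grind

theorem uf_y1 (u a b w : E) :
    (mul u (ldiv b (mul (ldiv a (mul b w)) (ldiv b (mul u a))))).y1 =
      (mul (ldiv a (mul u w)) (ldiv b (mul u a))).y1 := by
  rcases u with ⟨u1, u2, u3, u4, u5, u6⟩
  rcases a with ⟨a1, a2, a3, a4, a5, a6⟩
  rcases b with ⟨b1, b2, b3, b4, b5, b6⟩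
  rcases w with ⟨w1, w2, w3, w4, w5, w6⟩
  simp only [mul, ldiv, dd]
  rcases z2 a1 with rfl | rfl <;> rcases z2 a2 with rfl | rfl <;>
  rcases z2 b1 with rfl | rfl <;> rcases z2 b2 with rfl | rfl <;>
  rcases z2 u1 with rfl | rfl <;> rcases z2 u2 with rfl | rfl <;>
  rcases z2 w1 with rfl | rfl <;> rcases z2 w2 with rfl | rfl <;>
  grind

theorem uf_y2 (u a b w : E) :
    (mul u (ldiv b (mul (ldiv a (mul b w)) (ldiv b (mul u a))))).y2 =
      (mul (ldiv a (mul u w)) (ldiv b (mul u a))).y2 := by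
  rcases u with ⟨u1, u2, u3, u4, u5, u6⟩
  rcases a with ⟨a1, a2, a3, a4, a5, a6⟩
  rcases b with ⟨b1, b2, b3, b4, b5, b6⟩
  rcases w with ⟨w1, w2, w3, w4, w5, w6⟩
  simp only [mul, ldiv, dd]
  rcases z2 a1 with rfl | rfl <;> rcases z2 a2 with rfl | rfl <;>
  rcases z2 b1 with rfl | rfl <;> rcases z2 b2 with rfl | rfl <;>
  rcases z2 u1 with rfl | rfl <;> rcases z2 u2 with rfl | rfl <;>
  rcases z2 w1 with rfl | rfl <;> rcases z2 w2 with rfl | rfl <;>
  grind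

theorem uf_z0 (u a b w : E) (h1 : u.s1 = 0) (h2 : u.s2 = 0) :
    (mul u (ldiv b (mul (ldiv a (mul b w)) (ldiv b (mul u a))))).z =
      (mul (ldiv a (mul u w)) (ldiv b (mul u a))).z := by
  rcases u with ⟨u1, u2, u3, u4, u5, u6⟩
  rcases a with ⟨a1, a2, a3, a4, a5, a6⟩
  rcases b with ⟨b1, b2, b3, b4, b5, b6⟩
  rcases w with ⟨w1, w2, w3, w4, w5, w6⟩
  simp only at h1 h2
  subst h1 h2
  simp only [mul, ldiv, dd]
  rcases z2 a1 with rfl | rfl <;> rcases z2 a2 with rfl | rfl <;>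
  rcases z2 b1 with rfl | rfl <;> rcases z2 b2 with rfl | rfl <;>
  rcases z2 w1 with rfl | rfl <;> rcases z2 w2 with rfl | rfl <;>
  grind

theorem uf_z1 (u a b w : E) (h1 : u.s1 = 0) (h2 : u.s2 = 1) :
    (mul u (ldiv b (mul (ldiv a (mul b w)) (ldiv b (mul u a))))).z =
      (mul (ldiv a (mul u w)) (ldiv b (mul u a))).z := by
  rcases u with ⟨u1, u2, u3, u4, u5, u6⟩
  rcases a with ⟨a1, a2, a3, a4, a5, a6⟩
  rcases b with ⟨b1, b2, b3, b4, b5, b6⟩
  rcases w with ⟨w1, w2, w3, w4, w5, w6⟩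
  simp only at h1 h2
  subst h1 h2
  simp only [mul, ldiv, dd]
  rcases z2 a1 with rfl | rfl <;> rcases z2 a2 with rfl | rfl <;>
  rcases z2 b1 with rfl | rfl <;> rcases z2 b2 with rfl | rfl <;>
  rcases z2 w1 with rfl | rfl <;> rcases z2 w2 with rfl | rfl <;>
  grind

theorem uf_z2 (u a b w : E) (h1 : u.s1 = 1) (h2 : u.s2 = 0) :
    (mul u (ldiv b (mul (ldiv a (mul b w)) (ldiv b (mul u a))))).z =
      (mul (ldiv a (mul u w)) (ldiv b (mul u a))).z := by
  rcases u with ⟨u1, u2, u3, u4, u5, u6⟩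
  rcases a with ⟨a1, a2, a3, a4, a5, a6⟩
  rcases b with ⟨b1, b2, b3, b4, b5, b6⟩
  rcases w with ⟨w1, w2, w3, w4, w5, w6⟩
  simp only at h1 h2
  subst h1 h2
  simp only [mul, ldiv, dd]
  rcases z2 a1 with rfl | rfl <;> rcases z2 a2 with rfl | rfl <;>
  rcases z2 b1 with rfl | rfl <;> rcases z2 b2 with rfl | rfl <;>
  rcases z2 w1 with rfl | rfl <;> rcases z2 w2 with rfl | rfl <;>
  grind

theorem uf_z3 (u a b w : E) (h1 : u.s1 = 1) (h2 : u.s2 = 1) :
    (mul u (ldiv b (mul (ldiv a (mul b w)) (ldiv b (mul u a))))).z =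
      (mul (ldiv a (mul u w)) (ldiv b (mul u a))).z := by
  rcases u with ⟨u1, u2, u3, u4, u5, u6⟩
  rcases a with ⟨a1, a2, a3, a4, a5, a6⟩
  rcases b with ⟨b1, b2, b3, b4, b5, b6⟩
  rcases w with ⟨w1, w2, w3, w4, w5, w6⟩
  simp only at h1 h2
  subst h1 h2
  simp only [mul, ldiv, dd]
  rcases z2 a1 with rfl | rfl <;> rcases z2 a2 with rfl | rfl <;>
  rcases z2 b1 with rfl | rfl <;> rcases z2 b2 with rfl | rfl <;>
  rcases z2 w1 with rfl | rfl <;> rcases z2 w2 with rfl | rfl <;>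
  grind

theorem uf_z (u a b w : E) :
    (mul u (ldiv b (mul (ldiv a (mul b w)) (ldiv b (mul u a))))).z =
      (mul (ldiv a (mul u w)) (ldiv b (mul u a))).z := by
  rcases z2 u.s1 with h1 | h1 <;> rcases z2 u.s2 with h2 | h2
  · exact uf_z0 u a b w h1 h2
  · exact uf_z1 u a b w h1 h2
  · exact uf_z2 u a b w h1 h2
  · exact uf_z3 u a b w h1 h2

/-- The identity behind universal flexibility. -/
theorem uf_key (u a b w : E) :
    mul u (ldiv b (mul (ldiv a (mul b w)) (ldiv b (mul u a)))) =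
      mul (ldiv a (mul u w)) (ldiv b (mul u a)) :=
  E.ext (uf_s1 u a b w) (uf_s2 u a b w) (uf_y1 u a b w) (uf_y2 u a b w) (uf_c u a b w)
    (uf_z u a b w)

/-- The example, as a loop. -/
def exL : LoopStr E where
  mul := mul
  one := ⟨0, 0, 0, 0, 0, 0⟩
  ldiv := ldiv
  rdiv := fun b a => ldiv a b
  one_mul := one_mul'
  mul_one := fun x => by rw [mul_comm', one_mul']
  mul_ldiv := mul_ldiv
  ldiv_mul := ldiv_mul
  rdiv_mul := fun a b => by rw [mul_comm', mul_ldiv]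
  mul_rdiv := fun a y => by rw [mul_comm', ldiv_mul]

theorem exL_comm : exL.Comm := mul_comm'

theorem exL_AAIP : exL.AAIP := by
  refine ⟨fun x => ldiv x ⟨0, 0, 0, 0, 0, 0⟩, fun x => ⟨mul_ldiv _ _, ?_⟩, fun x y => inv_mul x y⟩
  change mul _ _ = _
  rw [mul_comm']
  exact mul_ldiv _ _

theorem exL_UF : exL.UF := by
  rintro α β ⟨e, he⟩ x y
  change mul (α x) (β (mul (α y) (β x))) = mul (α (mul (α x) (β y))) (β x)
  have hb : ∀ t, β t = ldiv (α e) t := fun t => by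
    have h := (he t).1
    change mul (α e) (β t) = t at h
    conv_rhs => rw [← h]
    rw [ldiv_mul]
  have ha : ∀ t, α t = ldiv (β e) t := fun t => by
    have h := (he t).2
    change mul (α t) (β e) = t at h
    conv_rhs => rw [← h]
    rw [mul_comm', ldiv_mul]
  have key := uf_key (α x) (β e) (α e) (β y)
  have h1 : mul (α x) (β e) = x := (he x).2
  have h2 : mul (α e) (β y) = y := (he y).1
  rw [h1, h2, ← hb, ← ha, ← hb, ← ha] at key
  exact key

theorem exL_not_middleBol : ¬ exL.MiddleBol := by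
  intro h
  have h1 := congrArg E.z (h ⟨0, 0, 0, 0, 1, 0⟩ ⟨0, 1, 0, 0, 0, 0⟩ ⟨1, 0, 0, 0, 0, 0⟩)
  revert h1
  simp only [exL, mul, ldiv, dd]
  decide

/-- **MP_9ff1c8_al, Q1.**  There is a commutative universally flexible loop with the
antiautomorphic inverse property that is not a middle Bol loop; the example has order `64`. -/
theorem result :
    ∃ (Q : Type) (L : LoopStr Q), Nat.card Q = 64 ∧ L.Comm ∧ L.UF ∧ L.AAIP ∧ ¬ L.MiddleBol := by
  refine ⟨E, exL, ?_, exL_comm, exL_UF, exL_AAIP, exL_not_middleBol⟩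
  rw [Nat.card_congr equivFun]
  simp

end Pool.Agent.Results.MP_9ff1c8_al.NotMiddleBol
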